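import Pool.Agent.Lib.MP_9fe581_an.FT.Fin

/-! Furstenberg's towers of torus extensions, with Lipschitz cocycles of nonzero degree, of every
(also infinite) height are Moebius disjoint, over every base rotation; moreover all functions of
mean zero are orthogonal, along every orbit, to every bounded multiplicative function. -/

open Filter Topology MeasureTheory

/-- Let `X = (ℝ/ℤ)^ι`, with `ι` countable, let `lev i` be the level of the coordinate `i`, and let
`T x i = x i + ∑_l a i l • x l + ψ i x`, where the integers `a i l` vanish unless `l` has lower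
level than `i`, the real function `ψ i` is continuous, depends on the coordinates of lower level
only and is Lipschitz in every coordinate of level `lev i - 1`. Suppose that the rotation at the
level zero is by rationally independent numbers (together with `1`), and that for every `j` the
rows `(a i l)_{lev l = j}` of the coordinates `i` of level `j + 1` are independent over `ℤ`.
Then `T` is a distal homeomorphism, it is Moebius disjoint, and for every continuous `f` and every
point `x` the sequence `f (T^n x) - ∫ f` (Haar measure) is orthogonal to every bounded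
multiplicative function. -/
theorem Pool.Agent.Results.MP_9fe581_an.FurstenbergTowers.result
    {ι : Type} [Countable ι] (lev : ι → ℕ) (a : ι → (ι →₀ ℤ)) (ψ : ι → (ι → UnitAddCircle) → ℝ)
    (hsup : ∀ i l, a i l ≠ 0 → lev l < lev i)
    (hdep : ∀ i x y, (∀ l, lev l < lev i → x l = y l) → ψ i x = ψ i y)
    (hcont : ∀ i, Continuous (ψ i))
    (hlip : ∀ i l, lev l + 1 = lev i → ∃ L : ℝ, ∀ (x y : ι → UnitAddCircle) (s : ℝ),
      (∀ k, k ≠ l → y k = x k) → y l = x l + (s : UnitAddCircle) → |ψ i y - ψ i x| ≤ L * |s|)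
    (hbase : ∀ m : ι →₀ ℤ, m ≠ 0 → (∀ i, m i ≠ 0 → lev i = 0) → ∀ k : ℤ,
      (m.sum fun i c => (c : ℝ) * ψ i 0) ≠ k)
    (hdeg : ∀ j : ℕ, ∀ m : ι →₀ ℤ, m ≠ 0 → (∀ i, m i ≠ 0 → lev i = j + 1) →
      ∃ l, lev l = j ∧ (m.sum fun i c => c * a i l) ≠ 0) :
    ∃ T : (ι → UnitAddCircle) ≃ₜ (ι → UnitAddCircle),
      (∀ x i, T x i = x i + ((a i).sum fun l k => k • x l) + (ψ i x : UnitAddCircle)) ∧
      (∀ x y, x ≠ y → ∃ i, x i ≠ y i ∧ ∀ n : ℕ, (T^[n] x) i - (T^[n] y) i = x i - y i ∧
        (T.symm^[n] x) i - (T.symm^[n] y) i = x i - y i) ∧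
      (∀ f : (ι → UnitAddCircle) → ℂ, Continuous f → ∀ x,
        Tendsto (fun N : ℕ => (1 / (N : ℂ)) * ∑ n ∈ Finset.Icc 1 N,
          f (T^[n] x) * ((ArithmeticFunction.moebius n : ℤ) : ℂ)) atTop (𝓝 0)) ∧
      (∀ μ : Measure (ι → UnitAddCircle), IsProbabilityMeasure μ → μ.IsAddLeftInvariant →
        ∀ u : ℕ → ℂ, (∀ n, ‖u n‖ ≤ 1) → (∀ m n, Nat.Coprime m n → u (m * n) = u m * u n) →
        ∀ f : (ι → UnitAddCircle) → ℂ, Continuous f → ∀ x,
          Tendsto (fun N : ℕ => (1 / (N : ℂ)) * ∑ n ∈ Finset.Icc 1 N,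
            (f (T^[n] x) - ∫ y, f y ∂μ) * u n) atTop (𝓝 0)) := by
  let W : Pool.Agent.Lib.MP_9fe581_an.FT.Tower ι :=
    { lev := lev, a := a, ψ := ψ, sup := hsup, dep := hdep, cont := hcont, lip := hlip,
      base := hbase, deg := hdeg }
  refine ⟨Pool.Agent.Lib.MP_9fe581_an.FT.hT W, ?_, ?_, ?_, ?_⟩
  · intro x i
    rw [add_assoc]
    rfl
  · exact Pool.Agent.Lib.MP_9fe581_an.FT.T_distal W
  · exact Pool.Agent.Lib.MP_9fe581_an.FT.moebius_disjoint W
  · intro μ hμ hinv u hu1 hmul f hf x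
    refine (Pool.Agent.Lib.MP_9fe581_an.FT.orth_all W μ u hu1 hmul ⟨f, hf⟩ x).congr fun N => ?_
    unfold Pool.Agent.Lib.MP_9fe581_an.FT.av
    congr 1
    exact Finset.sum_congr rfl fun n _ => mul_comm _ _
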